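import Pool.Agent.Helper60.PF.Defs

/-!
# Bounded overlap of balls

Packet L1 for MP_ef0af8_co.
-/

set_option autoImplicit false

namespace Pool.Agent.Helper50.PF

open Pool.Agent.Helper60.PF

/-- The unit vectors of two far away points are at distance at least `1`. -/
lemma unit_far {d : ℕ} {p q : E d} (hp : p ≠ 0) (hq : q ≠ 0) (hpq : ‖p‖ ≤ ‖q‖)
    (h : ‖q‖ ≤ ‖p - q‖) : 1 ≤ ‖(‖p‖⁻¹ • p) - (‖q‖⁻¹ • q)‖ := by
  have hp0 : 0 < ‖p‖ := norm_pos_iff.2 hp
  have hq0 : 0 < ‖q‖ := norm_pos_iff.2 hq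
  have h1 : ‖p - q‖ ^ 2 = ‖p‖ ^ 2 - 2 * inner ℝ p q + ‖q‖ ^ 2 := norm_sub_sq_real p q
  have h2 : ‖q‖ ^ 2 ≤ ‖p - q‖ ^ 2 := pow_le_pow_left₀ hq0.le h 2
  have h3 : 2 * inner ℝ p q ≤ ‖p‖ * ‖q‖ := by nlinarith
  have h4 : ‖(‖p‖⁻¹ • p) - (‖q‖⁻¹ • q)‖ ^ 2 = 2 - 2 * (inner ℝ p q / (‖p‖ * ‖q‖)) := by
    rw [norm_sub_sq_real, norm_smul, norm_smul, real_inner_smul_left, real_inner_smul_right,
      norm_inv, norm_inv, norm_norm, norm_norm, inv_mul_cancel₀ hp0.ne', inv_mul_cancel₀ hq0.ne']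
    field_simp
    ring
  have h5 : 2 * (inner ℝ p q / (‖p‖ * ‖q‖)) ≤ 1 := by
    rw [← mul_div_assoc, div_le_one (by positivity)]
    exact h3
  have h6 : 1 ≤ ‖(‖p‖⁻¹ • p) - (‖q‖⁻¹ • q)‖ ^ 2 := by linarith
  by_contra hcon
  push Not at hcon
  have h7 : ‖(‖p‖⁻¹ • p) - (‖q‖⁻¹ • q)‖ ^ 2 < 1 := by
    have h8 := norm_nonneg ((‖p‖⁻¹ • p) - (‖q‖⁻¹ • q))
    nlinarith
  linarith

theorem overlap : Overlap := by
  classical
  intro d X y r hsep hy
  set Y := X.erase y with hY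
  have hcardX : X.card ≤ Y.card + 1 := by
    have := Finset.pred_card_le_card_erase (s := X) (a := y)
    rw [← hY] at this
    omega
  have hu : ∀ a ∈ Y, ∀ b ∈ Y, a ≠ b →
      1 ≤ ‖(‖a - y‖⁻¹ • (a - y)) - (‖b - y‖⁻¹ • (b - y))‖ := by
    intro a ha b hb hab
    have ha' := Finset.mem_erase.1 ha
    have hb' := Finset.mem_erase.1 hb
    have h1 := hsep a ha'.2 b hb'.2 hab
    have ha0 : a - y ≠ 0 := sub_ne_zero.2 ha'.1
    have hb0 : b - y ≠ 0 := sub_ne_zero.2 hb'.1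
    have hya := hy a ha'.2
    have hyb := hy b hb'.2
    rw [norm_sub_rev] at hya hyb
    have e1 : (a - y) - (b - y) = a - b := by abel
    have e2 : (b - y) - (a - y) = b - a := by abel
    rcases le_total ‖a - y‖ ‖b - y‖ with h | h
    · apply unit_far ha0 hb0 h
      rw [e1]
      exact hyb.trans h1.2
    · rw [norm_sub_rev]
      apply unit_far hb0 ha0 h
      rw [e2, norm_sub_rev b a]
      exact hya.trans h1.1
  set u : E d → E d := fun a => ‖a - y‖⁻¹ • (a - y) with hudef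
  have hinj : Set.InjOn u Y := by
    intro a ha b hb hab
    by_contra hne
    have := hu a ha b hb hne
    rw [show (‖a - y‖⁻¹ • (a - y)) = u a from rfl, show (‖b - y‖⁻¹ • (b - y)) = u b from rfl, hab,
      sub_self, norm_zero] at this
    linarith
  have hcard : (Y.image u).card ≤ 5 ^ Module.finrank ℝ (E d) := by
    apply Besicovitch.card_le_of_separated
    · intro c hc
      obtain ⟨a, ha, rfl⟩ := Finset.mem_image.1 hc
      have ha' := Finset.mem_erase.1 ha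
      have ha0 : a - y ≠ 0 := sub_ne_zero.2 ha'.1
      rw [hudef]
      simp only
      rw [norm_smul, norm_inv, norm_norm, inv_mul_cancel₀ (norm_ne_zero_iff.2 ha0)]
      norm_num
    · intro c hc c' hc' hne
      obtain ⟨a, ha, rfl⟩ := Finset.mem_image.1 hc
      obtain ⟨b, hb, rfl⟩ := Finset.mem_image.1 hc'
      exact hu a ha b hb (fun h => hne (by rw [h]))
  rw [Finset.card_image_of_injOn hinj, finrank_euclideanSpace_fin] at hcard
  omega

end Pool.Agent.Helper50.PF
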